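import Mathlib

set_option autoImplicit false
set_option maxHeartbeats 4000000
set_option maxRecDepth 100000

namespace Pool.Agent.Helper816.Jan

def nsq : ℕ → ℕ → ℕ → ℕ
  | 0, _, x => x
  | f + 1, n, x => if (x + n / x) / 2 < x then nsq f n ((x + n / x) / 2) else x

def tst (v s r M : ℤ) : Bool :=
  !(decide (2 * s ∣ M) && decide (2 * s ^ 2 ∣ (v - 2) * r * (2 * M - r * v * (v - 1))) &&
    decide (2 * s ^ 3 ∣ (v - 2) * r ^ 2 * (3 * M - 2 * r * v * (v - 1))) &&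
    decide (s ^ 6 ∣ (v - 2) * (v - 3) * r ^ 5 * (6 * M - 5 * r * v * (v - 1))))

def chk (v s r : ℕ) : Bool :=
  if nsq 40 (s ^ 2 + 2 * r * (s - r) * (v - 2) * (v + 1)) (s * v) *
      nsq 40 (s ^ 2 + 2 * r * (s - r) * (v - 2) * (v + 1)) (s * v) =
      s ^ 2 + 2 * r * (s - r) * (v - 2) * (v + 1) then
    tst v s r ((r : ℤ) * v * (v - 1) + s - 2 * r + nsq 40 (s ^ 2 + 2 * r * (s - r) * (v - 2) * (v + 1)) (s * v)) &&
    tst v s r ((r : ℤ) * v * (v - 1) + s - 2 * r - nsq 40 (s ^ 2 + 2 * r * (s - r) * (v - 2) * (v + 1)) (s * v))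
  else
    decide (nsq 40 (s ^ 2 + 2 * r * (s - r) * (v - 2) * (v + 1)) (s * v) *
      nsq 40 (s ^ 2 + 2 * r * (s - r) * (v - 2) * (v + 1)) (s * v) <
      s ^ 2 + 2 * r * (s - r) * (v - 2) * (v + 1)) &&
    decide (s ^ 2 + 2 * r * (s - r) * (v - 2) * (v + 1) <
      (nsq 40 (s ^ 2 + 2 * r * (s - r) * (v - 2) * (v + 1)) (s * v) + 1) *
      (nsq 40 (s ^ 2 + 2 * r * (s - r) * (v - 2) * (v + 1)) (s * v) + 1))

def allr (v s : ℕ) : Bool :=
  (List.range s).all fun r => !(decide (0 < r) && decide (Nat.gcd r s = 1)) || chk v s r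

def alls (v : ℕ) : Bool :=
  (List.range v).all fun s => !(decide (v * (v - 1) * (v - 2) % s ^ 3 = 0)) || allr v s

def allv : Bool :=
  (List.range 243).all fun v => !(decide (3 ≤ v)) || alls v

theorem allv_true : allv = true := by
  decide +kernel

theorem fin_check (v : ℕ) (hv : v < 243) (hv3 : 3 ≤ v) (s : ℕ) (hs : s < v)
    (hd : s ^ 3 ∣ v * (v - 1) * (v - 2)) (r : ℕ) (hr : r < s) (hr0 : 0 < r) (hg : Nat.gcd r s = 1) :
    chk v s r = true := by
  have h1 := (List.all_eq_true.mp allv_true) v (List.mem_range.mpr hv)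
  rw [Bool.or_eq_true] at h1
  have h1' : alls v = true := by
    rcases h1 with h1 | h1
    · simp [hv3] at h1
    · exact h1
  have h2 := (List.all_eq_true.mp h1') s (List.mem_range.mpr hs)
  rw [Bool.or_eq_true] at h2
  have h2' : allr v s = true := by
    rcases h2 with h2 | h2
    · have := Nat.mod_eq_zero_of_dvd hd
      simp [this] at h2
    · exact h2
  have h3 := (List.all_eq_true.mp h2') r (List.mem_range.mpr hr)
  rw [Bool.or_eq_true] at h3
  rcases h3 with h3 | h3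
  · simp [hr0, hg] at h3
  · exact h3

theorem chk_sound (v s r : ℕ) (hv : 3 ≤ v) (hr : r < s) (m e c X : ℤ)
    (hq : (2 * (s : ℤ) * m - r * v * (v - 1) - s + 2 * r) ^ 2 =
      (s : ℤ) ^ 2 + 2 * r * (s - r) * (v - 2) * (v + 1))
    (he : 2 * (s : ℤ) ^ 2 * e = (v - 2) * r * (2 * (2 * s * m) - r * v * (v - 1)))
    (hc : 2 * (s : ℤ) ^ 3 * c = (v - 2) * r ^ 2 * (3 * (2 * s * m) - 2 * r * v * (v - 1)))
    (hX : (s : ℤ) ^ 6 * X = (v - 2) * (v - 3) * r ^ 5 * (6 * (2 * s * m) - 5 * r * v * (v - 1)))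
    (h : chk v s r = true) : False := by
  have ht : tst v s r (2 * s * m) = true → False := by
    intro h
    have e1 : 2 * (s : ℤ) ∣ 2 * s * m := ⟨m, rfl⟩
    have e2 : 2 * (s : ℤ) ^ 2 ∣ (v - 2) * r * (2 * (2 * s * m) - r * v * (v - 1)) := ⟨e, he.symm⟩
    have e3 : 2 * (s : ℤ) ^ 3 ∣ (v - 2) * r ^ 2 * (3 * (2 * s * m) - 2 * r * v * (v - 1)) := ⟨c, hc.symm⟩
    have e4 : (s : ℤ) ^ 6 ∣ (v - 2) * (v - 3) * r ^ 5 * (6 * (2 * s * m) - 5 * r * v * (v - 1)) := ⟨X, hX.symm⟩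
    simp only [tst, decide_eq_true e1, decide_eq_true e2, decide_eq_true e3, decide_eq_true e4] at h
    simp at h
  unfold chk at h
  obtain ⟨n, hn⟩ : ∃ n : ℕ, n = s ^ 2 + 2 * r * (s - r) * (v - 2) * (v + 1) := ⟨_, rfl⟩
  rw [← hn] at h
  obtain ⟨z, hz⟩ : ∃ z : ℕ, z = nsq 40 n (s * v) := ⟨_, rfl⟩
  rw [← hz] at h
  have hnz : (n : ℤ) = (s : ℤ) ^ 2 + 2 * r * (s - r) * (v - 2) * (v + 1) := by
    rw [hn]
    push_cast [Nat.cast_sub hr.le, Nat.cast_sub (show 2 ≤ v by omega)]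
    ring
  rw [← hnz] at hq
  split_ifs at h with hzz
  · have hzz' : (z : ℤ) * z = n := by exact_mod_cast hzz
    rw [Bool.and_eq_true] at h
    have : (2 * (s : ℤ) * m - r * v * (v - 1) - s + 2 * r - z) *
        (2 * (s : ℤ) * m - r * v * (v - 1) - s + 2 * r + z) = 0 := by linear_combination hq - hzz'
    rcases mul_eq_zero.mp this with h1 | h1
    · apply ht
      have : 2 * (s : ℤ) * m = (r : ℤ) * v * (v - 1) + s - 2 * r + z := by linear_combination h1
      rw [this]; exact h.1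
    · apply ht
      have : 2 * (s : ℤ) * m = (r : ℤ) * v * (v - 1) + s - 2 * r - z := by linear_combination h1
      rw [this]; exact h.2
  · rw [Bool.and_eq_true] at h
    have h1 : z * z < n := of_decide_eq_true h.1
    have h2 : n < (z + 1) * (z + 1) := of_decide_eq_true h.2
    have h1' : (z : ℤ) * z < n := by exact_mod_cast h1
    have h2' : (n : ℤ) < (z + 1) * (z + 1) := by exact_mod_cast h2
    obtain ⟨w, hw⟩ : ∃ w : ℤ, w = |2 * (s : ℤ) * m - r * v * (v - 1) - s + 2 * r| := ⟨_, rfl⟩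
    have hw2 : w * w = n := by rw [hw, abs_mul_abs_self, ← hq]; ring
    have hw0 : 0 ≤ w := by rw [hw]; exact abs_nonneg _
    have a1 : (z : ℤ) < w := by nlinarith
    have a2 : w < z + 1 := by nlinarith
    omega

end Pool.Agent.Helper816.Jan
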