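import Pool.Agent.Helper816.Jan.Sums

set_option autoImplicit false
open Finset
open Classical

namespace Pool.Agent.Helper816.Jan

variable {v : ℕ}

/-- Adjacency indicator. -/
noncomputable def A (F : SimpleGraph (Fin v)) (a b : Fin v) : ℝ := if F.Adj a b then 1 else 0

/-- Centred adjacency, with zero diagonal. -/
noncomputable def Z (F : SimpleGraph (Fin v)) (p : ℝ) (a b : Fin v) : ℝ :=
  if a = b then 0 else A F a b - p

theorem A_diag (F : SimpleGraph (Fin v)) (a : Fin v) : A F a a = 0 := by simp [A]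

theorem A_symm (F : SimpleGraph (Fin v)) (a b : Fin v) : A F a b = A F b a := by
  simp [A, F.adj_comm a b]

theorem A_sq (F : SimpleGraph (Fin v)) (a b : Fin v) : A F a b * A F a b = A F a b := by
  unfold A; split_ifs <;> simp

theorem Z_diag (F : SimpleGraph (Fin v)) (p : ℝ) (a : Fin v) : Z F p a a = 0 := by simp [Z]

theorem Z_symm (F : SimpleGraph (Fin v)) (p : ℝ) (a b : Fin v) : Z F p a b = Z F p b a := by
  simp [Z, A_symm F a b, eq_comm]

theorem Z_eq (F : SimpleGraph (Fin v)) (p : ℝ) (a b : Fin v) :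
    Z F p a b = A F a b - p + (if a = b then p else 0) := by
  by_cases h : a = b
  · subst h; simp [Z, A_diag]
  · simp [Z, h]

/-- Handshake. -/
theorem handshake (G : SimpleGraph (Fin v)) :
    (∑ a, ∑ b, A G a b) = 2 * (G.edgeFinset.card : ℝ) := by
  have h := G.sum_degrees_eq_twice_card_edges
  have h' : (∑ a, (G.degree a : ℝ)) = 2 * (G.edgeFinset.card : ℝ) := by exact_mod_cast h
  rw [← h']
  refine sum_congr rfl fun a _ => ?_
  unfold A
  rw [Finset.sum_boole, ← SimpleGraph.card_neighborFinset_eq_degree,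
    SimpleGraph.neighborFinset_eq_filter]

theorem row (G : SimpleGraph (Fin v)) (a : Fin v) : (∑ b, A G a b) = (G.degree a : ℝ) := by
  unfold A
  rw [Finset.sum_boole, ← SimpleGraph.card_neighborFinset_eq_degree,
    SimpleGraph.neighborFinset_eq_filter]

theorem S1 (F : SimpleGraph (Fin v)) (p : ℝ) :
    (∑ a, ∑ b, Z F p a b) = (∑ a, ∑ b, A F a b) - p * (v * (v - 1)) := by
  simp only [Z_eq, Finset.sum_add_distrib, Finset.sum_sub_distrib]
  simp
  ring

theorem rowZ (F : SimpleGraph (Fin v)) (p : ℝ) (b : Fin v) :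
    (∑ a, Z F p b a) = (∑ a, A F b a) - p * (v - 1) := by
  simp only [Z_eq, Finset.sum_add_distrib, Finset.sum_sub_distrib]
  simp
  ring

theorem S2 (F : SimpleGraph (Fin v)) (p : ℝ) :
    (∑ a, ∑ b, Z F p a b ^ 2) = (1 - 2 * p) * (∑ a, ∑ b, A F a b) + p ^ 2 * (v * (v - 1)) := by
  have h : ∀ a b, Z F p a b ^ 2 = (1 - 2 * p) * A F a b + p ^ 2 - (if a = b then p ^ 2 else 0) := by
    intro a b
    by_cases hab : a = b
    · subst hab; simp [Z, A_diag]
    · have := A_sq F a b
      simp only [Z, hab, if_false]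
      linear_combination this
  simp only [h, Finset.sum_add_distrib, Finset.sum_sub_distrib, ← Finset.mul_sum]
  simp
  ring

theorem S3 (F : SimpleGraph (Fin v)) (p : ℝ) :
    (∑ b, (∑ a, Z F p b a) ^ 2) = (∑ b, (∑ a, A F b a) ^ 2)
      - 2 * p * (v - 1) * (∑ a, ∑ b, A F a b) + p ^ 2 * (v - 1) ^ 2 * v := by
  simp only [rowZ]
  have h : ∀ b : Fin v, ((∑ a, A F b a) - p * (v - 1)) ^ 2 =
      (∑ a, A F b a) ^ 2 - 2 * p * (v - 1) * (∑ a, A F b a) + p ^ 2 * (v - 1) ^ 2 := by
    intro b; ring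
  simp only [h, Finset.sum_add_distrib, Finset.sum_sub_distrib, ← Finset.mul_sum]
  simp
  ring

/-- off-diagonal indicator -/
noncomputable def E (a b : Fin v) : ℝ := if a = b then 0 else 1

theorem E_symm (a b : Fin v) : (E a b : ℝ) = E b a := by simp [E, eq_comm]

theorem E_eq (a b : Fin v) : (E a b : ℝ) = 1 - (if a = b then 1 else 0) := by
  unfold E; split_ifs <;> simp

theorem EE (a b : Fin v) : (∑ c, E a c * E b c : ℝ) = v - 2 + (if a = b then 1 else 0) := by
  have h : ∀ c : Fin v, (E a c * E b c : ℝ) = 1 - (if a = c then 1 else 0) - (if b = c then 1 else 0)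
      + (if a = b then (if a = c then 1 else 0) else 0) := by
    intro c
    unfold E
    by_cases h1 : a = c
    · subst h1
      by_cases h2 : b = a
      · subst h2; simp
      · have : ¬ a = b := fun h => h2 h.symm
        simp [h2, this]
    · by_cases h2 : b = c
      · subst h2; simp [h1]
      · simp [h1, h2]
  simp only [h, Finset.sum_add_distrib, Finset.sum_sub_distrib]
  by_cases hab : a = b
  · simp [hab]; ring
  · simp [hab]; ring

theorem rot (g : Fin v → Fin v → Fin v → ℝ) :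
    (∑ a, ∑ b, ∑ c, g a b c) = ∑ a, ∑ b, ∑ c, g b c a := by
  calc (∑ a, ∑ b, ∑ c, g a b c) = ∑ a, ∑ c, ∑ b, g a b c :=
        sum_congr rfl fun a _ => Finset.sum_comm
    _ = ∑ c, ∑ a, ∑ b, g a b c := Finset.sum_comm

theorem S4 (F : SimpleGraph (Fin v)) (p : ℝ) :
    (∑ a, ∑ b, ∑ c, Z F p a b * Z F p a c * Z F p b c) =
      (∑ a, ∑ b, ∑ c, A F a b * A F a c * A F b c)
      - 3 * p * ((∑ b, (∑ a, A F b a) ^ 2) - (∑ a, ∑ b, A F a b))
      + 3 * p ^ 2 * ((v - 2) * (∑ a, ∑ b, A F a b)) - p ^ 3 * (v * (v - 1) * (v - 2)) := by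
  have hZ : ∀ a b, Z F p a b = A F a b - p * E a b := by
    intro a b
    rw [Z_eq, E_eq]
    split_ifs <;> ring
  have hAE : ∀ a b, A F a b * E a b = A F a b := by
    intro a b
    by_cases hab : a = b
    · subst hab; simp [A_diag]
    · simp [E, hab]
  have hexp : ∀ a b c, Z F p a b * Z F p a c * Z F p b c =
      A F a b * A F a c * A F b c
      - p * (A F a b * A F a c * E b c) - p * (A F a b * A F b c * E a c)
      - p * (A F a c * A F b c * E a b)
      + p ^ 2 * (A F a b * (E a c * E b c)) + p ^ 2 * (A F a c * (E a b * E b c))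
      + p ^ 2 * (A F b c * (E a b * E a c)) - p ^ 3 * (E a b * (E a c * E b c)) := by
    intro a b c
    rw [hZ, hZ, hZ]; ring
  simp only [hexp, Finset.sum_add_distrib, Finset.sum_sub_distrib, ← Finset.mul_sum]
  have X1 : (∑ a, ∑ b, ∑ c, A F a b * A F a c * E b c) =
      (∑ b, (∑ a, A F b a) ^ 2) - (∑ a, ∑ b, A F a b) := by
    rw [← Finset.sum_sub_distrib]
    refine sum_congr rfl fun a _ => ?_
    have : ∀ b c, A F a b * A F a c * E b c = A F a b * A F a c - (if b = c then A F a b * A F a c else 0) := by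
      intro b c
      rw [E_eq]; split_ifs <;> ring
    simp only [this, Finset.sum_sub_distrib]
    congr 1
    · rw [sq, Finset.sum_mul_sum]
    · simp [A_sq]
  have X2 : (∑ a, ∑ b, ∑ c, A F a b * A F b c * E a c) =
      ∑ a, ∑ b, ∑ c, A F a b * A F a c * E b c := by
    rw [Finset.sum_comm]
    refine sum_congr rfl fun a _ => sum_congr rfl fun b _ => sum_congr rfl fun c _ => ?_
    rw [A_symm F b a]
  have X3 : (∑ a, ∑ b, ∑ c, A F a c * A F b c * E a b) =
      ∑ a, ∑ b, ∑ c, A F a b * A F a c * E b c := by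
    rw [rot (fun a b c => A F a c * A F b c * E a b)]
    refine sum_congr rfl fun a _ => sum_congr rfl fun b _ => sum_congr rfl fun c _ => ?_
    rw [A_symm F b a, A_symm F c a]
  have Y1 : (∑ a, ∑ b, ∑ c, A F a b * (E a c * E b c)) = (v - 2) * (∑ a, ∑ b, A F a b) := by
    simp only [← Finset.mul_sum, EE]
    rw [Finset.mul_sum]
    refine sum_congr rfl fun a _ => ?_
    rw [Finset.mul_sum]
    refine sum_congr rfl fun b _ => ?_
    by_cases hab : a = b
    · subst hab; simp [A_diag]
    · simp [hab]; ring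
  have Y2 : (∑ a, ∑ b, ∑ c, A F a c * (E a b * E b c)) =
      ∑ a, ∑ b, ∑ c, A F a b * (E a c * E b c) := by
    refine sum_congr rfl fun a _ => ?_
    rw [Finset.sum_comm]
    refine sum_congr rfl fun b _ => sum_congr rfl fun c _ => ?_
    rw [E_symm c b]
  have Y3 : (∑ a, ∑ b, ∑ c, A F b c * (E a b * E a c)) =
      ∑ a, ∑ b, ∑ c, A F a b * (E a c * E b c) := by
    rw [rot (fun a b c => A F a b * (E a c * E b c))]
    refine sum_congr rfl fun a _ => sum_congr rfl fun b _ => sum_congr rfl fun c _ => ?_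
    rw [E_symm b a, E_symm c a]
  have W : (∑ a : Fin v, ∑ b, ∑ c, (E a b * (E a c * E b c) : ℝ)) = v * (v - 1) * (v - 2) := by
    simp only [← Finset.mul_sum, EE]
    have : ∀ a b : Fin v, (E a b * (v - 2 + (if a = b then 1 else 0)) : ℝ) =
        (v - 2) - (if a = b then ((v : ℝ) - 2) else 0) := by
      intro a b
      unfold E
      by_cases hab : a = b
      · simp [hab]
      · simp [hab]
    simp only [this, Finset.sum_sub_distrib]
    simp
    ring
  have Y1' := Y1
  have W' := W
  simp only [← Finset.mul_sum] at Y1' W'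
  rw [X2, X3, X1, Y2, Y3, Y1, Y1', W']
  ring

end Pool.Agent.Helper816.Jan
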