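import Pool.Agent.Helper816.Jan.Main

set_option autoImplicit false
open Finset
open Classical

namespace Pool.Agent.Helper816.Jan

variable {v : ℕ}

theorem cs_forget (F : SimpleGraph (Fin v)) (p : ℝ) {k : ℕ} (H : SimpleGraph (Fin (k + 1))) (w : Fin (k + 1))
    (hw : ∀ u, ¬ H.Adj w u) (hk : k ≤ v) :
    cs F p H = (v - k) * cs F p (H.comap w.succAbove) := by
  unfold cs
  have h1 : ∀ φ : Fin (k + 1) ↪ Fin v, (∏ i : Fin (k + 1), ∏ j : Fin (k + 1),
      (if i < j ∧ H.Adj i j then ((if F.Adj (φ i) (φ j) then (1 : ℝ) else 0) - p) else 1)) =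
      ∏ i : Fin k, ∏ j : Fin k, (if i < j ∧ (H.comap w.succAbove).Adj i j then
        ((if F.Adj (φ (w.succAbove i)) (φ (w.succAbove j)) then (1 : ℝ) else 0) - p) else 1) := by
    intro φ
    rw [Fin.prod_univ_succAbove _ w]
    have e1 : (∏ j : Fin (k + 1), (if w < j ∧ H.Adj w j then
        ((if F.Adj (φ w) (φ j) then (1 : ℝ) else 0) - p) else 1)) = 1 := by
      refine Finset.prod_eq_one fun j _ => ?_
      rw [if_neg]
      exact fun h => hw j h.2
    rw [e1, one_mul]
    refine Finset.prod_congr rfl fun i _ => ?_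
    rw [Fin.prod_univ_succAbove _ w]
    rw [if_neg (fun h => hw _ h.2.symm), one_mul]
    refine Finset.prod_congr rfl fun j _ => ?_
    simp only [SimpleGraph.comap_adj, Fin.succAbove_lt_succAbove_iff]
  simp only [h1]
  let E := (Equiv.embeddingCongr (finSuccEquiv' w) (Equiv.refl (Fin v))).trans
    (Function.Embedding.optionEmbeddingEquiv (Fin k) (Fin v))
  rw [← Equiv.sum_comp E.symm, Fintype.sum_sigma, Finset.mul_sum]
  refine Finset.sum_congr rfl fun f _ => ?_
  have h2 : ∀ x : ((Set.range f)ᶜ : Set (Fin v)), ∀ i : Fin k, (E.symm ⟨f, x⟩) (w.succAbove i) = f i := by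
    intro x i
    simp [E, Equiv.embeddingCongr]
  simp only [h2]
  rw [Finset.sum_const, nsmul_eq_mul]
  congr 1
  have h3 : Fintype.card ((Set.range f)ᶜ : Set (Fin v)) = v - k := by
    rw [Fintype.card_compl_set, Set.card_range_of_injective f.injective]
    simp
  rw [Finset.card_univ, h3, Nat.cast_sub hk]

end Pool.Agent.Helper816.Jan
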