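import Pool.Agent.Helper816.Jan.Main

set_option autoImplicit false
set_option maxHeartbeats 4000000
set_option synthInstance.maxHeartbeats 400000
open Finset

namespace Pool.Agent.Helper816.Jan

def E6 : Finset (Fin 4 × Fin 4) := univ.filter (fun e => e.1 < e.2)

def Cov (a b c d x u : Fin 4) : Bool :=
  (x == a && u == b) || (u == a && x == b) || (x == c && u == d) || (u == c && x == d)

def covers (a b c d : Fin 4) : Bool := decide (∀ w : Fin 4, ∃ u : Fin 4, Cov a b c d w u = true)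

def almost (a b c d w : Fin 4) : Bool :=
  decide (∀ x : Fin 4, x ≠ w → ∃ u : Fin 4, Cov a b c d x u = true) &&
  decide (∀ i : Fin 3, ∃ j : Fin 3, Cov a b c d (w.succAbove i) (w.succAbove j) = true)

theorem decA'' : ∀ a b c d : Fin 4, a < b → c < d → ¬ (a = c ∧ b = d) →
    (covers a b c d = true) ∨ ∃ w : Fin 4, almost a b c d w = true := by
  decide +kernel

theorem decB' : ∀ a b : Fin 4, a < b →
    ∃ w : Fin 4, (w ≠ a ∧ w ≠ b) ∧
      ∃ w' : Fin 3, (w.succAbove w' ≠ a ∧ w.succAbove w' ≠ b) ∧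
        ((w.succAbove (w'.succAbove 0) = a ∧ w.succAbove (w'.succAbove 1) = b)) := by
  decide +kernel

theorem decA' (a b c d : Fin 4) (h1 : a < b) (h2 : c < d) (h3 : ¬ (a = c ∧ b = d)) :
    (∀ w : Fin 4, ∃ u : Fin 4, (w = a ∧ u = b) ∨ (u = a ∧ w = b) ∨ (w = c ∧ u = d) ∨ (u = c ∧ w = d)) ∨
    ∃ w : Fin 4, (∀ x : Fin 4, x ≠ w → ∃ u : Fin 4,
      (x = a ∧ u = b) ∨ (u = a ∧ x = b) ∨ (x = c ∧ u = d) ∨ (u = c ∧ x = d)) ∧
      ∀ i : Fin 3, ∃ j : Fin 3, (w.succAbove i = a ∧ w.succAbove j = b) ∨ (w.succAbove j = a ∧ w.succAbove i = b) ∨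
        (w.succAbove i = c ∧ w.succAbove j = d) ∨ (w.succAbove j = c ∧ w.succAbove i = d) := by
  have hC : ∀ x u, Cov a b c d x u = true →
      ((x = a ∧ u = b) ∨ (u = a ∧ x = b) ∨ (x = c ∧ u = d) ∨ (u = c ∧ x = d)) := by
    intro x u h
    simp only [Cov, Bool.or_eq_true, Bool.and_eq_true, beq_iff_eq] at h
    tauto
  rcases decA'' a b c d h1 h2 h3 with h | ⟨w, h⟩
  · left
    intro w
    obtain ⟨u, hu⟩ := (of_decide_eq_true h) w
    exact ⟨u, hC _ _ hu⟩
  · right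
    simp only [almost, Bool.and_eq_true] at h
    refine ⟨w, fun x hx => ?_, fun i => ?_⟩
    · obtain ⟨u, hu⟩ := (of_decide_eq_true h.1) x hx
      exact ⟨u, hC _ _ hu⟩
    · obtain ⟨j, hj⟩ := (of_decide_eq_true h.2) i
      exact ⟨j, hC _ _ hj⟩

theorem E6_card : E6.card = 6 := by decide +kernel

theorem mem_E6 (a b : Fin 4) : (a, b) ∈ E6 ↔ a < b := by simp [E6]

end Pool.Agent.Helper816.Jan
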