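import Pool.Agent.Helper816.Jan.K4
import Pool.Agent.Helper816.Jan.K4b

set_option autoImplicit false
open Finset
open Classical

namespace Pool.Agent.Helper816.Jan

variable {v : ℕ}

def Ht (t : Finset (Fin 4 × Fin 4)) : SimpleGraph (Fin 4) where
  Adj i j := i ≠ j ∧ ((i, j) ∈ t ∨ (j, i) ∈ t)
  symm := ⟨by intro i j h; exact ⟨h.1.symm, h.2.symm⟩⟩
  loopless := ⟨by intro i h; exact h.1 rfl⟩

theorem cs_Ht (F : SimpleGraph (Fin v)) (p : ℝ) (t : Finset (Fin 4 × Fin 4)) (ht : t ⊆ E6) :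
    cs F p (Ht t) = ∑ φ : Fin 4 ↪ Fin v, ∏ e ∈ t, ((if F.Adj (φ e.1) (φ e.2) then (1 : ℝ) else 0) - p) := by
  unfold cs
  refine sum_congr rfl fun φ _ => ?_
  rw [← Fintype.prod_prod_type' (f := fun i j => (if i < j ∧ (Ht t).Adj i j then
    ((if F.Adj (φ i) (φ j) then (1 : ℝ) else 0) - p) else 1)), ← Finset.prod_filter]
  refine Finset.prod_congr ?_ fun _ _ => rfl
  ext e
  simp only [Finset.mem_filter, Finset.mem_univ, true_and]
  have hE : ∀ x ∈ t, x.1 < x.2 := fun x hx => by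
    have := ht hx
    simp only [E6, Finset.mem_filter, Finset.mem_univ, true_and] at this
    exact this
  constructor
  · rintro ⟨h1, h2, h3 | h3⟩
    · exact h3
    · have := hE _ h3
      exact absurd this (not_lt.mpr h1.le)
  · intro h
    exact ⟨hE _ h, (hE _ h).ne, Or.inl h⟩

theorem cs_val (F : SimpleGraph (Fin v)) (p : ℝ) (hv : 3 ≤ v)
    (h3 : ∀ H : SimpleGraph (Fin 3), (∀ w, ∃ u, H.Adj w u) → cs F p H = 0)
    (h4 : ∀ H : SimpleGraph (Fin 4), (∀ w, ∃ u, H.Adj w u) → cs F p H = 0)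
    (t : Finset (Fin 4 × Fin 4)) (ht : t ∈ E6.powerset) :
    cs F p (Ht t) = if t.card = 0 then (v : ℝ) * (v - 1) * (v - 2) * (v - 3) else
      if t.card = 1 then (v - 2) * (v - 3) * cs F p (⊤ : SimpleGraph (Fin 2)) else 0 := by
  split_ifs with c0 c1
  · have : t = ∅ := Finset.card_eq_zero.mp c0
    subst this
    rw [cs_forget F p _ 0 (by intro u h; simpa [Ht] using h.2) hv]
    rw [cs_forget F p _ 0 (by intro u h; simpa [Ht] using h) (by omega)]
    rw [cs_forget F p _ 0 (by intro u h; simpa [Ht] using h) (by omega)]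
    rw [cs_forget F p _ 0 (by intro u h; simpa [Ht] using h) (by omega)]
    simp [cs]
    ring
  · obtain ⟨⟨a, b⟩, rfl⟩ := Finset.card_eq_one.mp c1
    have hab : a < b := by
      rw [← mem_E6]
      exact Finset.mem_powerset.mp ht (Finset.mem_singleton_self _)
    obtain ⟨w, hw, w', hw', hij⟩ := decB' a b hab
    rw [cs_forget F p _ w (by
      rintro u ⟨_, h | h⟩
      · simp only [Finset.mem_singleton, Prod.mk.injEq] at h; exact hw.1 h.1
      · simp only [Finset.mem_singleton, Prod.mk.injEq] at h; exact hw.2 h.2) hv]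
    rw [cs_forget F p _ w' (by
      rintro u ⟨_, h | h⟩
      · simp only [Finset.mem_singleton, Prod.mk.injEq] at h; exact hw'.1 h.1
      · simp only [Finset.mem_singleton, Prod.mk.injEq] at h; exact hw'.2 h.2) (by omega)]
    have : ((Ht {(a, b)}).comap w.succAbove).comap w'.succAbove = ⊤ := by
      have key : (((Ht {(a, b)}).comap w.succAbove).comap w'.succAbove).Adj 0 1 := by
        refine ⟨?_, Or.inl ?_⟩
        · rw [hij.1, hij.2]; exact hab.ne
        · rw [hij.1, hij.2]; exact Finset.mem_singleton_self _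
      ext i j
      constructor
      · intro h; exact h.ne
      · intro h
        fin_cases i <;> fin_cases j
        · exact absurd rfl h
        · exact key
        · exact key.symm
        · exact absurd rfl h
    rw [this]
    push_cast
    ring
  · have h2 : 1 < t.card := by omega
    obtain ⟨⟨a, b⟩, h1, ⟨c, d⟩, h2, hne⟩ := Finset.one_lt_card.mp h2
    have hab : a < b := by rw [← mem_E6]; exact Finset.mem_powerset.mp ht h1
    have hcd : c < d := by rw [← mem_E6]; exact Finset.mem_powerset.mp ht h2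
    have cov : ∀ x u : Fin 4, ((x = a ∧ u = b) ∨ (u = a ∧ x = b) ∨ (x = c ∧ u = d) ∨ (u = c ∧ x = d)) →
        (Ht t).Adj x u := by
      rintro x u (⟨rfl, rfl⟩ | ⟨rfl, rfl⟩ | ⟨rfl, rfl⟩ | ⟨rfl, rfl⟩)
      · exact ⟨hab.ne, Or.inl h1⟩
      · exact ⟨hab.ne', Or.inr h1⟩
      · exact ⟨hcd.ne, Or.inl h2⟩
      · exact ⟨hcd.ne', Or.inr h2⟩
    rcases decA' a b c d hab hcd (by rintro ⟨rfl, rfl⟩; exact hne rfl) with h | ⟨w, hw, hw'⟩
    · refine h4 _ fun x => ?_
      obtain ⟨u, hu⟩ := h x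
      exact ⟨u, cov x u hu⟩
    · by_cases hiso : ∃ u, (Ht t).Adj w u
      · refine h4 _ fun x => ?_
        by_cases hx : x = w
        · rw [hx]; exact hiso
        · obtain ⟨u, hu⟩ := hw x hx
          exact ⟨u, cov x u hu⟩
      · push Not at hiso
        rw [cs_forget F p _ w hiso hv, h3 _ (fun i => by
          obtain ⟨j, hj⟩ := hw' i
          exact ⟨j, cov _ _ hj⟩), mul_zero]

theorem X4_formula (F : SimpleGraph (Fin v)) (p : ℝ) (hv : 3 ≤ v)
    (h3 : ∀ H : SimpleGraph (Fin 3), (∀ w, ∃ u, H.Adj w u) → cs F p H = 0)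
    (h4 : ∀ H : SimpleGraph (Fin 4), (∀ w, ∃ u, H.Adj w u) → cs F p H = 0) :
    ∃ n : ℕ, (n : ℝ) = p ^ 6 * (v * (v - 1) * (v - 2) * (v - 3))
      + 6 * p ^ 5 * ((v - 2) * (v - 3) * cs F p (⊤ : SimpleGraph (Fin 2))) := by
  refine ⟨∑ φ : Fin 4 ↪ Fin v, ∏ e ∈ E6, (if F.Adj (φ e.1) (φ e.2) then 1 else 0), ?_⟩
  push_cast
  have h : ∀ φ : Fin 4 ↪ Fin v, (∏ e ∈ E6, (if F.Adj (φ e.1) (φ e.2) then (1 : ℝ) else 0)) =
      ∑ t ∈ E6.powerset, p ^ (6 - t.card) *
        ∏ e ∈ t, ((if F.Adj (φ e.1) (φ e.2) then (1 : ℝ) else 0) - p) := by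
    intro φ
    have := Finset.prod_add (fun e : Fin 4 × Fin 4 => (if F.Adj (φ e.1) (φ e.2) then (1 : ℝ) else 0) - p)
      (fun _ => p) E6
    simp only [sub_add_cancel] at this
    rw [this]
    refine sum_congr rfl fun t ht => ?_
    rw [Finset.prod_const, Finset.card_sdiff_of_subset (Finset.mem_powerset.mp ht), E6_card]
    ring
  simp only [h]
  rw [Finset.sum_comm]
  have h' : ∀ t ∈ E6.powerset, (∑ φ : Fin 4 ↪ Fin v, p ^ (6 - t.card) *
      ∏ e ∈ t, ((if F.Adj (φ e.1) (φ e.2) then (1 : ℝ) else 0) - p)) =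
      (fun n : ℕ => p ^ (6 - n) * (if n = 0 then (v : ℝ) * (v - 1) * (v - 2) * (v - 3) else
      if n = 1 then (v - 2) * (v - 3) * cs F p (⊤ : SimpleGraph (Fin 2)) else 0)) t.card := by
    intro t ht
    rw [← Finset.mul_sum, ← cs_Ht F p t (Finset.mem_powerset.mp ht), cs_val F p hv h3 h4 t ht]
  rw [Finset.sum_congr rfl h']
  rw [Finset.sum_powerset_apply_card (fun n : ℕ => p ^ (6 - n) * (if n = 0 then (v : ℝ) * (v - 1) * (v - 2) * (v - 3) else
      if n = 1 then (v - 2) * (v - 3) * cs F p (⊤ : SimpleGraph (Fin 2)) else 0)), E6_card]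
  simp [Finset.sum_range_succ]
  ring

theorem cs_edge (F : SimpleGraph (Fin v)) (p : ℝ) :
    cs F p (⊤ : SimpleGraph (Fin 2)) = 2 * (F.edgeFinset.card : ℝ) - p * (v * (v - 1)) := by
  rw [← handshake, ← S1]
  have h1 : cs F p (⊤ : SimpleGraph (Fin 2)) = ∑ φ : Fin 2 ↪ Fin v, Z F p (φ 0) (φ 1) := by
    unfold cs
    refine sum_congr rfl fun φ _ => ?_
    have h01 : φ 0 ≠ φ 1 := fun h => by simpa using φ.injective h
    simp [Fin.prod_univ_two, Z, A, h01]
  have h2 : (∑ a, ∑ b, Z F p a b) = ∑ x ∈ (univ : Finset (Fin v × Fin v)).filter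
      (fun x => x.1 ≠ x.2), Z F p x.1 x.2 := by
    rw [Finset.sum_filter, Fintype.sum_prod_type]
    refine Finset.sum_congr rfl fun a _ => Finset.sum_congr rfl fun b _ => ?_
    by_cases h : a = b
    · subst h; simp [Z_diag]
    · simp [h]
  rw [h1, h2]
  refine Finset.sum_bij (fun φ _ => (φ 0, φ 1)) ?_ ?_ ?_ ?_
  · intro φ _
    simp only [Finset.mem_filter, Finset.mem_univ, true_and]
    intro h; have := φ.injective h; simp at this
  · intro φ _ ψ _ h
    simp only [Prod.mk.injEq] at h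
    ext i
    fin_cases i
    · simpa using congrArg Fin.val h.1
    · simpa using congrArg Fin.val h.2
  · rintro ⟨a, b⟩ hx
    simp only [Finset.mem_filter, Finset.mem_univ, true_and] at hx
    refine ⟨⟨![a, b], ?_⟩, Finset.mem_univ _, ?_⟩
    · intro i j hij
      fin_cases i <;> fin_cases j <;> simp_all
    · simp only [Prod.mk.injEq]; exact ⟨rfl, rfl⟩
  · intro φ _; rfl

end Pool.Agent.Helper816.Jan
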