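import Mathlib

set_option autoImplicit false

namespace Pool.Agent.Helper816.Jan

/-- Prime power part of the divisibility. `w = v - 2`. -/
theorem prime_part (q a : ℕ) (hq : q.Prime) (ha : 1 ≤ a) (v N r s t m c e : ℤ)
    (hN : 2 * N = v * (v - 1)) (hs : (q : ℤ) ^ a ∣ s) (hr : ¬ (q : ℤ) ∣ r)
    (h3 : s ^ 3 * c = (v - 2) * r ^ 2 * (r * N + 3 * t))
    (h2 : s ^ 2 * e = (v - 2) * r * (r * N + 2 * t))
    (ht : t = m * s - r * N)
    (hT : t ^ 2 = (s - 2 * r) * t + r * (s - r) * N) :
    ((q : ℤ) ^ (3 * a)) ∣ v * (v - 1) * (v - 2) := by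
  have hqp : Prime (q : ℤ) := Nat.prime_iff_prime_int.mp hq
  obtain ⟨s', hs'⟩ := hs
  have hqs : (q : ℤ) ∣ s := by
    rw [hs']
    exact Dvd.dvd.mul_right (dvd_pow_self _ (by omega)) _
  have hcr : ∀ k : ℕ, IsCoprime ((q : ℤ) ^ k) r := fun k =>
    IsCoprime.pow_left ((Prime.coprime_iff_not_dvd hqp).2 hr)
  have h3' : (q : ℤ) ^ (3 * a) ∣ (v - 2) * (r * N + 3 * t) := by
    have : (q : ℤ) ^ (3 * a) ∣ r ^ 2 * ((v - 2) * (r * N + 3 * t)) := by
      refine ⟨s' ^ 3 * c, ?_⟩
      have : r ^ 2 * ((v - 2) * (r * N + 3 * t)) = s ^ 3 * c := by rw [h3]; ring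
      rw [this, hs', mul_pow, ← pow_mul, mul_comm a 3]; ring
    exact (IsCoprime.pow_right (hcr _)).dvd_of_dvd_mul_left this
  have h2' : (q : ℤ) ^ (2 * a) ∣ (v - 2) * (r * N + 2 * t) := by
    have : (q : ℤ) ^ (2 * a) ∣ r * ((v - 2) * (r * N + 2 * t)) := by
      refine ⟨s' ^ 2 * e, ?_⟩
      have : r * ((v - 2) * (r * N + 2 * t)) = s ^ 2 * e := by rw [h2]; ring
      rw [this, hs', mul_pow, ← pow_mul, mul_comm a 2]; ring
    exact (hcr _).dvd_of_dvd_mul_left this
  have h1' : (q : ℤ) ^ a ∣ r * N + t := by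
    rw [ht, hs']; exact ⟨m * s', by ring⟩
  -- a general finishing step
  have finish : ∀ b : ℕ, 1 ≤ b → (q : ℤ) ^ b ∣ r * N + 3 * t → (q : ℤ) ∣ t → (q : ℤ) ^ b ∣ N := by
    intro b hb hb3 hqt
    have e1 : t * (t + 2 * s - r) = (s - r) * (r * N + 3 * t) := by
      linear_combination hT
    have d1 : (q : ℤ) ^ b ∣ t * (t + 2 * s - r) := by
      rw [e1]; exact Dvd.dvd.mul_left hb3 _
    have nd : ¬ (q : ℤ) ∣ (t + 2 * s - r) := by
      intro hd
      apply hr
      have : r = (t + 2 * s) - (t + 2 * s - r) := by ring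
      rw [this]
      exact dvd_sub (dvd_add hqt (Dvd.dvd.mul_left hqs _)) hd
    have d2 : (q : ℤ) ^ b ∣ t :=
      (IsCoprime.pow_left ((Prime.coprime_iff_not_dvd hqp).2 nd)).dvd_of_dvd_mul_right d1
    have d3 : (q : ℤ) ^ b ∣ r * N := by
      have : r * N = (r * N + 3 * t) - 3 * t := by ring
      rw [this]; exact dvd_sub hb3 (Dvd.dvd.mul_left d2 _)
    exact (hcr _).dvd_of_dvd_mul_left d3
  by_cases hw : (q : ℤ) ∣ v - 2
  · by_cases hq2 : q = 2
    · subst hq2
      obtain ⟨w, hw⟩ := hw
      push_cast at hw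
      rcases Int.even_or_odd' w with ⟨w', hw' | hw'⟩
      · -- v - 2 = 4 w'
        have hv : v = 4 * w' + 2 := by linarith
        have hNodd : N = (2 * w' + 1) * (4 * w' + 1) := by
          have : 2 * N = 2 * ((2 * w' + 1) * (4 * w' + 1)) := by rw [hN, hv]; ring
          linarith
        rcases Nat.lt_or_ge a 2 with ha2 | ha2
        · have : a = 1 := by omega
          subst this
          refine ⟨(2 * w' + 1) * (4 * w' + 1) * w', ?_⟩
          rw [hv]; push_cast; ring
        · -- a ≥ 2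
          have h4 : (4 : ℤ) ∣ r * N + t := by
            have : (4 : ℤ) ∣ ((2 : ℕ) : ℤ) ^ a := by
              have h := pow_dvd_pow (2 : ℤ) ha2
              push_cast
              norm_num at h ⊢
              exact h
            exact this.trans h1'
          have hro : Odd r := by
            rw [← Int.not_even_iff_odd, even_iff_two_dvd]
            exact_mod_cast hr
          have hNo : Odd N := by
            rw [hNodd]
            exact Odd.mul ⟨w', by ring⟩ ⟨2 * w', by ring⟩
          obtain ⟨g, hg⟩ := h4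
          obtain ⟨f, hf⟩ := hro.mul hNo
          have hto : t = 4 * g - 2 * f - 1 := by linarith
          have e2 : r * N + 3 * t = 2 * (2 * (3 * g - f - 1) + 1) := by
            rw [hf, hto]; ring
          have hodd : ¬ ((2 : ℕ) : ℤ) ∣ (2 * (3 * g - f - 1) + 1) := by
            push_cast
            omega
          have d1 : ((2 : ℕ) : ℤ) ^ (3 * a) ∣ (2 * (v - 2)) * (2 * (3 * g - f - 1) + 1) := by
            have : (2 * (v - 2)) * (2 * (3 * g - f - 1) + 1) = (v - 2) * (r * N + 3 * t) := by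
              rw [e2]; ring
            rw [this]; exact h3'
          have d2 : ((2 : ℕ) : ℤ) ^ (3 * a) ∣ 2 * (v - 2) :=
            (IsCoprime.pow_left ((Prime.coprime_iff_not_dvd hqp).2 hodd)).dvd_of_dvd_mul_right d1
          have : v * (v - 1) * (v - 2) = ((2 * w' + 1) * (v - 1)) * (2 * (v - 2)) := by
            rw [hv]; ring
          rw [this]; exact Dvd.dvd.mul_left d2 _
      · -- v - 2 = 2 (2 w' + 1)
        have hv : v = 4 * w' + 4 := by linarith
        obtain ⟨b, hb⟩ : ∃ b, 3 * a = b + 1 := ⟨3 * a - 1, by omega⟩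
        obtain ⟨b2, hb2⟩ : ∃ b2, 2 * a = b2 + 1 := ⟨2 * a - 1, by omega⟩
        have hodd : ¬ ((2 : ℕ) : ℤ) ∣ (2 * w' + 1) := by push_cast; omega
        have g3 : ((2 : ℕ) : ℤ) ^ b ∣ r * N + 3 * t := by
          rw [hb, pow_succ] at h3'
          have : (v - 2) * (r * N + 3 * t) = ((2 * w' + 1) * (r * N + 3 * t)) * ((2 : ℕ) : ℤ) := by
            rw [hv]; push_cast; ring
          rw [this] at h3'
          have h4 := Int.dvd_of_mul_dvd_mul_right (by norm_num) h3'
          exact (IsCoprime.pow_left ((Prime.coprime_iff_not_dvd hqp).2 hodd)).dvd_of_dvd_mul_left h4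
        have g2 : ((2 : ℕ) : ℤ) ^ b2 ∣ r * N + 2 * t := by
          rw [hb2, pow_succ] at h2'
          have : (v - 2) * (r * N + 2 * t) = ((2 * w' + 1) * (r * N + 2 * t)) * ((2 : ℕ) : ℤ) := by
            rw [hv]; push_cast; ring
          rw [this] at h2'
          have h4 := Int.dvd_of_mul_dvd_mul_right (by norm_num) h2'
          exact (IsCoprime.pow_left ((Prime.coprime_iff_not_dvd hqp).2 hodd)).dvd_of_dvd_mul_left h4
        have hqt : ((2 : ℕ) : ℤ) ∣ t := by
          have i1 : ((2 : ℕ) : ℤ) ∣ r * N + 3 * t := (dvd_pow_self _ (by omega)).trans g3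
          have i2 : ((2 : ℕ) : ℤ) ∣ r * N + 2 * t := (dvd_pow_self _ (by omega)).trans g2
          have : t = (r * N + 3 * t) - (r * N + 2 * t) := by ring
          rw [this]; exact dvd_sub i1 i2
        have := finish b (by omega) g3 hqt
        obtain ⟨n', hn'⟩ := this
        refine ⟨n' * (v - 2), ?_⟩
        rw [hb, pow_succ]
        have : v * (v - 1) * (v - 2) = (2 * N) * (v - 2) := by rw [hN]
        rw [this, hn']; push_cast; ring
    · -- q odd, q ∣ v - 2
      have hq2' : ¬ (q : ℤ) ∣ 2 := by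
        intro h
        have : q ∣ 2 := by exact_mod_cast h
        exact hq2 ((Nat.prime_dvd_prime_iff_eq hq Nat.prime_two).1 this)
      have hN1 : (q : ℤ) ∣ N - 1 := by
        have : (q : ℤ) ∣ 2 * (N - 1) := by
          have e : 2 * (N - 1) = (v - 2) * (v + 1) := by linear_combination hN
          rw [e]; exact Dvd.dvd.mul_right hw _
        rcases hqp.dvd_or_dvd this with h | h
        · exact absurd h hq2'
        · exact h
      have hq1 : (q : ℤ) ∣ r * N + t := (dvd_pow_self _ (by omega)).trans h1'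
      have nd : ¬ (q : ℤ) ∣ r * N + 3 * t := by
        intro hd
        have e1 : 2 * r = -(2 * r * (N - 1)) + 3 * (r * N + t) - (r * N + 3 * t) := by ring
        have : (q : ℤ) ∣ 2 * r := by
          rw [e1]
          exact dvd_sub (dvd_add ((Dvd.dvd.mul_left hN1 _).neg_right) (Dvd.dvd.mul_left hq1 _)) hd
        rcases hqp.dvd_or_dvd this with h | h
        · exact hq2' h
        · exact hr h
      have := (IsCoprime.pow_left (m := 3 * a) ((Prime.coprime_iff_not_dvd hqp).2 nd)).dvd_of_dvd_mul_right h3'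
      exact Dvd.dvd.mul_left this _
  · -- q ∤ v - 2
    have cw : ∀ k : ℕ, IsCoprime ((q : ℤ) ^ k) (v - 2) := fun k =>
      IsCoprime.pow_left ((Prime.coprime_iff_not_dvd hqp).2 hw)
    have g3 := (cw _).dvd_of_dvd_mul_left h3'
    have g2 := (cw _).dvd_of_dvd_mul_left h2'
    have hqt : (q : ℤ) ∣ t := by
      have i1 : (q : ℤ) ∣ r * N + 3 * t := (dvd_pow_self _ (by omega)).trans g3
      have i2 : (q : ℤ) ∣ r * N + 2 * t := (dvd_pow_self _ (by omega)).trans g2
      have : t = (r * N + 3 * t) - (r * N + 2 * t) := by ring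
      rw [this]; exact dvd_sub i1 i2
    have := finish (3 * a) (by omega) g3 hqt
    have e : v * (v - 1) * (v - 2) = N * (2 * (v - 2)) := by
      linear_combination (-(v - 2)) * hN
    rw [e]; exact Dvd.dvd.mul_right this _

/-- The denominator condition. -/
theorem den_cube (v N r t m c e : ℤ) (s : ℕ) (hs0 : 0 < s)
    (hN : 2 * N = v * (v - 1)) (hrs : IsCoprime r (s : ℤ))
    (h3 : (s : ℤ) ^ 3 * c = (v - 2) * r ^ 2 * (r * N + 3 * t))
    (h2 : (s : ℤ) ^ 2 * e = (v - 2) * r * (r * N + 2 * t))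
    (ht : t = m * s - r * N)
    (hT : t ^ 2 = (s - 2 * r) * t + r * (s - r) * N) :
    ((s : ℤ) ^ 3) ∣ v * (v - 1) * (v - 2) := by
  have key : (s ^ 3 : ℕ) ∣ (v * (v - 1) * (v - 2)).natAbs := by
    rw [Nat.dvd_iff_prime_pow_dvd_dvd]
    intro q k hq hk
    rcases Nat.eq_zero_or_pos k with hk0 | hk0
    · subst hk0; simp
    · have hqs : q ∣ s := by
        have : q ∣ s ^ 3 := (dvd_pow_self q (by omega)).trans hk
        exact hq.dvd_of_dvd_pow this
      have ha1 : 1 ≤ s.factorization q := by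
        exact (hq.dvd_iff_one_le_factorization (by omega)).1 hqs
      have hpa : q ^ (s.factorization q) ∣ s := Nat.ordProj_dvd s q
      have hk3 : k ≤ 3 * s.factorization q := by
        have h1 := (hq.pow_dvd_iff_le_factorization (by positivity)).1 hk
        rw [Nat.factorization_pow] at h1
        simpa using h1
      have hr : ¬ (q : ℤ) ∣ r := by
        intro h
        have h' : (q : ℤ) ∣ (s : ℤ) := by exact_mod_cast hqs
        have := hrs.isUnit_of_dvd' h h'
        rw [Int.isUnit_iff] at this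
        have := hq.two_le
        omega
      have := prime_part q (s.factorization q) hq ha1 v N r s t m c e hN
        (by exact_mod_cast hpa) hr h3 h2 ht hT
      have h5 : ((q ^ k : ℕ) : ℤ) ∣ v * (v - 1) * (v - 2) := by
        push_cast
        exact (pow_dvd_pow _ hk3).trans this
      exact Int.natCast_dvd.1 h5
  have := Int.natCast_dvd.2 key
  push_cast at this
  exact this

end Pool.Agent.Helper816.Jan
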