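import Pool.Agent.Helper816.Jan.Graph
import Pool.Agent.Helper816.Jan.NT

set_option autoImplicit false
open Finset
open Classical

namespace Pool.Agent.Helper816.Jan

variable {v : ℕ}

/-- path with middle vertex 1 -/
def P3 : SimpleGraph (Fin 3) where
  Adj i j := (i = 1 ∧ j ≠ 1) ∨ (j = 1 ∧ i ≠ 1)
  symm := ⟨by intro i j h; tauto⟩
  loopless := ⟨by intro i h; tauto⟩

/-- two disjoint edges 01 and 23 -/
def M4 : SimpleGraph (Fin 4) where
  Adj i j := i ≠ j ∧ i.val / 2 = j.val / 2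
  symm := ⟨by intro i j h; exact ⟨h.1.symm, h.2.symm⟩⟩
  loopless := ⟨by intro i h; exact h.1 rfl⟩

/-- the centred sum over embeddings -/
noncomputable def cs (F : SimpleGraph (Fin v)) (p : ℝ) {k : ℕ} (H : SimpleGraph (Fin k)) : ℝ :=
  ∑ φ : Fin k ↪ Fin v, ∏ i : Fin k, ∏ j : Fin k,
    (if i < j ∧ H.Adj i j then ((if F.Adj (φ i) (φ j) then (1 : ℝ) else 0) - p) else 1)

theorem cs_P3 (F : SimpleGraph (Fin v)) (p : ℝ) :
    cs F p P3 = (∑ b, (∑ a, Z F p b a) ^ 2) - ∑ a, ∑ b, Z F p a b ^ 2 := by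
  rw [← path_sum _ (Z_diag F p) (Z_symm F p)]
  rw [← sum_emb3 (fun a b c => Z F p a b * Z F p b c)]
  unfold cs
  refine sum_congr rfl fun φ _ => ?_
  have h01 : φ 0 ≠ φ 1 := fun h => by simpa using φ.injective h
  have h12 : φ 1 ≠ φ 2 := fun h => by simpa using φ.injective h
  simp [Fin.prod_univ_three, P3, Z, A, h01, h12]

theorem cs_K3 (F : SimpleGraph (Fin v)) (p : ℝ) :
    cs F p (⊤ : SimpleGraph (Fin 3)) = ∑ a, ∑ b, ∑ c, Z F p a b * Z F p a c * Z F p b c := by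
  rw [← tri_sum _ (Z_diag F p)]
  rw [← sum_emb3 (fun a b c => Z F p a b * Z F p a c * Z F p b c)]
  unfold cs
  refine sum_congr rfl fun φ _ => ?_
  have h01 : φ 0 ≠ φ 1 := fun h => by simpa using φ.injective h
  have h02 : φ 0 ≠ φ 2 := fun h => by simpa using φ.injective h
  have h12 : φ 1 ≠ φ 2 := fun h => by simpa using φ.injective h
  simp [Fin.prod_univ_three, Z, A, h01, h12, h02]

theorem cs_M4 (F : SimpleGraph (Fin v)) (p : ℝ) :
    cs F p M4 = (∑ a, ∑ b, Z F p a b) ^ 2 - 4 * (∑ b, (∑ a, Z F p b a) ^ 2)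
      + 2 * ∑ a, ∑ b, Z F p a b ^ 2 := by
  rw [← match_sum _ (Z_diag F p) (Z_symm F p)]
  rw [← sum_emb4 (fun a b c d => Z F p a b * Z F p c d)]
  unfold cs
  refine sum_congr rfl fun φ _ => ?_
  have h01 : φ 0 ≠ φ 1 := fun h => by simpa using φ.injective h
  have h23 : φ 2 ≠ φ 3 := fun h => by
    have := φ.injective h
    revert this; decide
  have hM : ∀ i j : Fin 4, (i < j ∧ M4.Adj i j) ↔ ((i = 0 ∧ j = 1) ∨ (i = 2 ∧ j = 3)) := by
    intro i j
    change (i < j ∧ (i ≠ j ∧ i.val / 2 = j.val / 2)) ↔ _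
    revert i j; decide
  simp only [hM]
  simp [Fin.prod_univ_four, Z, A, h01, h23]

theorem main_real (F : SimpleGraph (Fin v)) (p : ℝ)
    (hP : cs F p P3 = 0) (hK : cs F p (⊤ : SimpleGraph (Fin 3)) = 0) (hM : cs F p M4 = 0) :
    ∃ e c : ℕ,
      (2 * (F.edgeFinset.card : ℝ) - p * (v * (v - 1))) ^ 2 =
        2 * ((1 - 2 * p) * (2 * F.edgeFinset.card) + p ^ 2 * (v * (v - 1))) ∧
      2 * (e : ℝ) = (v - 2) * (2 * p * (2 * F.edgeFinset.card) - p ^ 2 * (v * (v - 1))) ∧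
      2 * (c : ℝ) = 3 * p * (2 * (e : ℝ)) - 3 * p ^ 2 * ((v - 2) * (2 * F.edgeFinset.card))
        + p ^ 3 * (v * (v - 1) * (v - 2)) := by
  rw [cs_P3] at hP
  rw [cs_K3, S4] at hK
  rw [cs_M4] at hM
  rw [S3, S2] at hP
  rw [S3, S2, S1] at hM
  rw [handshake] at hP hK hM
  -- sum of squares of degrees
  have hD : (∑ b, (∑ a, A F b a) ^ 2) - 2 * (F.edgeFinset.card : ℝ) =
      2 * ((∑ b, (F.degree b).choose 2 : ℕ) : ℝ) := by
    rw [← handshake]
    push_cast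
    rw [← Finset.sum_sub_distrib, Finset.mul_sum]
    refine sum_congr rfl fun b _ => ?_
    rw [row, Nat.cast_choose_two]
    ring
  -- triples
  have hT : ∃ c : ℕ, (∑ a, ∑ b, ∑ c, A F a b * A F a c * A F b c) = 2 * (c : ℝ) := by
    let G : Fin v → SimpleGraph (Fin v) := fun a =>
      { Adj := fun b c => F.Adj a b ∧ F.Adj a c ∧ F.Adj b c
        symm := ⟨by intro b c h; exact ⟨h.2.1, h.1, h.2.2.symm⟩⟩
        loopless := ⟨by intro b h; exact h.2.2.ne rfl⟩ }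
    refine ⟨∑ a, (G a).edgeFinset.card, ?_⟩
    push_cast
    rw [Finset.mul_sum]
    refine sum_congr rfl fun a _ => ?_
    have hh := handshake (G a)
    have h2 : (∑ b, ∑ c, A F a b * A F a c * A F b c) = ∑ b, ∑ c, A (G a) b c := by
      refine sum_congr rfl fun b _ => sum_congr rfl fun c _ => ?_
      simp only [A, G]
      by_cases h1 : F.Adj a b <;> by_cases h2 : F.Adj a c <;> by_cases h3 : F.Adj b c <;>
        simp [h1, h2, h3]
    rw [h2, hh]
    exact congrArg (fun n : ℕ => 2 * (n : ℝ)) (congrArg Finset.card (by ext; simp))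
  obtain ⟨c, hc⟩ := hT
  refine ⟨∑ b, (F.degree b).choose 2, c, ?_, ?_, ?_⟩
  · linear_combination hM + 4 * hP
  · rw [← hD]; linear_combination hP
  · rw [← hc, ← hD]; linear_combination hK

end Pool.Agent.Helper816.Jan
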