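import Mathlib

set_option autoImplicit false
open Finset

namespace Pool.Agent.Helper816.Jan

variable {v : ℕ}

theorem sum_emb3 (g : Fin v → Fin v → Fin v → ℝ) :
    ∑ φ : Fin 3 ↪ Fin v, g (φ 0) (φ 1) (φ 2) =
      ∑ a, ∑ b, ∑ c, (if a ≠ b ∧ a ≠ c ∧ b ≠ c then g a b c else 0) := by
  have h1 : (∑ a, ∑ b, ∑ c, (if a ≠ b ∧ a ≠ c ∧ b ≠ c then g a b c else 0)) =
      ∑ x ∈ (univ : Finset (Fin v × Fin v × Fin v)).filter
        (fun x => x.1 ≠ x.2.1 ∧ x.1 ≠ x.2.2 ∧ x.2.1 ≠ x.2.2), g x.1 x.2.1 x.2.2 := by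
    rw [Finset.sum_filter, Fintype.sum_prod_type]
    refine Finset.sum_congr rfl fun a _ => ?_
    rw [Fintype.sum_prod_type]
  rw [h1]
  refine Finset.sum_bij (fun φ _ => (φ 0, φ 1, φ 2)) ?_ ?_ ?_ ?_
  · intro φ _
    simp only [Finset.mem_filter, Finset.mem_univ, true_and]
    refine ⟨?_, ?_, ?_⟩ <;> (intro h; have := φ.injective h; simp at this)
  · intro φ _ ψ _ h
    simp only [Prod.mk.injEq] at h
    ext i
    fin_cases i
    · simpa using congrArg Fin.val h.1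
    · simpa using congrArg Fin.val h.2.1
    · simpa using congrArg Fin.val h.2.2
  · rintro ⟨a, b, c⟩ hx
    simp only [Finset.mem_filter, Finset.mem_univ, true_and] at hx
    obtain ⟨hab, hac, hbc⟩ := hx
    refine ⟨⟨![a, b, c], ?_⟩, Finset.mem_univ _, ?_⟩
    · intro i j hij
      fin_cases i <;> fin_cases j <;> simp_all
    · simp only [Prod.mk.injEq]; exact ⟨rfl, rfl, rfl⟩
  · intro φ _; rfl

theorem sum_emb4 (g : Fin v → Fin v → Fin v → Fin v → ℝ) :
    ∑ φ : Fin 4 ↪ Fin v, g (φ 0) (φ 1) (φ 2) (φ 3) =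
      ∑ a, ∑ b, ∑ c, ∑ d, (if a ≠ b ∧ a ≠ c ∧ a ≠ d ∧ b ≠ c ∧ b ≠ d ∧ c ≠ d then g a b c d else 0) := by
  have h1 : (∑ a, ∑ b, ∑ c, ∑ d,
      (if a ≠ b ∧ a ≠ c ∧ a ≠ d ∧ b ≠ c ∧ b ≠ d ∧ c ≠ d then g a b c d else 0)) =
      ∑ x ∈ (univ : Finset (Fin v × Fin v × Fin v × Fin v)).filter
        (fun x => x.1 ≠ x.2.1 ∧ x.1 ≠ x.2.2.1 ∧ x.1 ≠ x.2.2.2 ∧ x.2.1 ≠ x.2.2.1 ∧
          x.2.1 ≠ x.2.2.2 ∧ x.2.2.1 ≠ x.2.2.2), g x.1 x.2.1 x.2.2.1 x.2.2.2 := by
    rw [Finset.sum_filter, Fintype.sum_prod_type]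
    refine Finset.sum_congr rfl fun a _ => ?_
    rw [Fintype.sum_prod_type]
    refine Finset.sum_congr rfl fun b _ => ?_
    rw [Fintype.sum_prod_type]
  rw [h1]
  refine Finset.sum_bij (fun φ _ => (φ 0, φ 1, φ 2, φ 3)) ?_ ?_ ?_ ?_
  · intro φ _
    simp only [Finset.mem_filter, Finset.mem_univ, true_and]
    refine ⟨?_, ?_, ?_, ?_, ?_, ?_⟩ <;> (intro h; have := φ.injective h; simp at this)
  · intro φ _ ψ _ h
    simp only [Prod.mk.injEq] at h
    ext i
    fin_cases i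
    · simpa using congrArg Fin.val h.1
    · simpa using congrArg Fin.val h.2.1
    · simpa using congrArg Fin.val h.2.2.1
    · simpa using congrArg Fin.val h.2.2.2
  · rintro ⟨a, b, c, d⟩ hx
    simp only [Finset.mem_filter, Finset.mem_univ, true_and] at hx
    obtain ⟨hab, hac, had, hbc, hbd, hcd⟩ := hx
    refine ⟨⟨![a, b, c, d], ?_⟩, Finset.mem_univ _, ?_⟩
    · intro i j hij
      fin_cases i <;> fin_cases j <;> simp_all
    · simp only [Prod.mk.injEq]; exact ⟨rfl, rfl, rfl, rfl⟩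
  · intro φ _; rfl

theorem e_ac (f : Fin v → Fin v → Fin v → Fin v → ℝ) :
    (∑ a, ∑ b, ∑ c, ∑ d, if a = c then f a b c d else 0) = ∑ a, ∑ b, ∑ d, f a b a d := by
  refine sum_congr rfl fun a _ => sum_congr rfl fun b _ => ?_
  rw [Finset.sum_comm]; simp

theorem e_ad (f : Fin v → Fin v → Fin v → Fin v → ℝ) :
    (∑ a, ∑ b, ∑ c, ∑ d, if a = d then f a b c d else 0) = ∑ a, ∑ b, ∑ c, f a b c a := by
  simp

theorem e_bc (f : Fin v → Fin v → Fin v → Fin v → ℝ) :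
    (∑ a, ∑ b, ∑ c, ∑ d, if b = c then f a b c d else 0) = ∑ a, ∑ b, ∑ d, f a b b d := by
  refine sum_congr rfl fun a _ => sum_congr rfl fun b _ => ?_
  rw [Finset.sum_comm]; simp

theorem e_bd (f : Fin v → Fin v → Fin v → Fin v → ℝ) :
    (∑ a, ∑ b, ∑ c, ∑ d, if b = d then f a b c d else 0) = ∑ a, ∑ b, ∑ c, f a b c b := by
  simp

theorem e_acbd (f : Fin v → Fin v → Fin v → Fin v → ℝ) :
    (∑ a, ∑ b, ∑ c, ∑ d, if a = c ∧ b = d then f a b c d else 0) = ∑ a, ∑ b, f a b a b := by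
  simp [ite_and]

theorem e_adbc (f : Fin v → Fin v → Fin v → Fin v → ℝ) :
    (∑ a, ∑ b, ∑ c, ∑ d, if a = d ∧ b = c then f a b c d else 0) = ∑ a, ∑ b, f a b b a := by
  simp [ite_and]

theorem path_sum (Z : Fin v → Fin v → ℝ) (h0 : ∀ a, Z a a = 0) (hs : ∀ a b, Z a b = Z b a) :
    (∑ a, ∑ b, ∑ c, (if a ≠ b ∧ a ≠ c ∧ b ≠ c then Z a b * Z b c else 0)) =
      (∑ b, (∑ a, Z b a) ^ 2) - ∑ a, ∑ b, Z a b ^ 2 := by
  have h1 : ∀ a b c, (if a ≠ b ∧ a ≠ c ∧ b ≠ c then Z a b * Z b c else 0) =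
      Z b a * Z b c - (if a = c then Z a b * Z b c else 0) := by
    intro a b c
    by_cases hab : a = b
    · subst hab; simp [h0]
    · by_cases hac : a = c
      · subst hac; simp [hs b a]
      · by_cases hbc : b = c
        · subst hbc; simp [h0]
        · simp [hab, hac, hbc, hs b a]
  simp only [h1, Finset.sum_sub_distrib]
  congr 1
  · rw [Finset.sum_comm]
    refine sum_congr rfl fun b _ => ?_
    rw [sq, Finset.sum_mul_sum]
  · refine sum_congr rfl fun a _ => sum_congr rfl fun b _ => ?_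
    simp [hs b a, sq]

theorem tri_sum (Z : Fin v → Fin v → ℝ) (h0 : ∀ a, Z a a = 0) :
    (∑ a, ∑ b, ∑ c, (if a ≠ b ∧ a ≠ c ∧ b ≠ c then Z a b * Z a c * Z b c else 0)) =
      ∑ a, ∑ b, ∑ c, Z a b * Z a c * Z b c := by
  refine sum_congr rfl fun a _ => sum_congr rfl fun b _ => sum_congr rfl fun c _ => ?_
  by_cases hab : a = b
  · subst hab; simp [h0]
  · by_cases hac : a = c
    · subst hac; simp [h0]
    · by_cases hbc : b = c
      · subst hbc; simp [h0]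
      · simp [hab, hac, hbc]

theorem match_sum (Z : Fin v → Fin v → ℝ) (h0 : ∀ a, Z a a = 0) (hs : ∀ a b, Z a b = Z b a) :
    (∑ a, ∑ b, ∑ c, ∑ d, (if a ≠ b ∧ a ≠ c ∧ a ≠ d ∧ b ≠ c ∧ b ≠ d ∧ c ≠ d
        then Z a b * Z c d else 0)) =
      (∑ a, ∑ b, Z a b) ^ 2 - 4 * (∑ b, (∑ a, Z b a) ^ 2) + 2 * ∑ a, ∑ b, Z a b ^ 2 := by
  have h1 : ∀ a b c d, (if a ≠ b ∧ a ≠ c ∧ a ≠ d ∧ b ≠ c ∧ b ≠ d ∧ c ≠ d
        then Z a b * Z c d else 0) =
      Z a b * Z c d - (if a = c then Z a b * Z c d else 0) - (if a = d then Z a b * Z c d else 0)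
       - (if b = c then Z a b * Z c d else 0) - (if b = d then Z a b * Z c d else 0)
       + (if a = c ∧ b = d then Z a b * Z c d else 0)
       + (if a = d ∧ b = c then Z a b * Z c d else 0) := by
    intro a b c d
    by_cases hab : a = b
    · subst hab; simp [h0]
    · by_cases hcd : c = d
      · subst hcd; simp [h0]
      · by_cases hac : a = c
        · subst hac
          by_cases hbd : b = d
          · subst hbd; simp [hab, Ne.symm hab]
          · have : ¬ b = a := fun h => hab h.symm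
            simp [hab, hbd, hcd, this]
        · by_cases had : a = d
          · subst had
            by_cases hbc : b = c
            · subst hbc; simp [hab, Ne.symm hab]
            · have : ¬ b = a := fun h => hab h.symm
              simp [hab, hac, hbc, this]
          · by_cases hbc : b = c
            · subst hbc; simp [hab, had, hcd]
            · by_cases hbd : b = d
              · subst hbd; simp [hab, hac, hbc]
              · simp [hab, hac, had, hbc, hbd, hcd]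
  simp only [h1, Finset.sum_sub_distrib, Finset.sum_add_distrib]
  rw [e_ac, e_ad, e_bc, e_bd, e_acbd, e_adbc]
  have r0 : (∑ a, ∑ b, ∑ c, ∑ d, Z a b * Z c d) = (∑ a, ∑ b, Z a b) ^ 2 := by
    rw [sq, Finset.sum_mul]
    refine sum_congr rfl fun a _ => ?_
    rw [Finset.sum_mul]
    refine sum_congr rfl fun b _ => ?_
    rw [Finset.mul_sum]
    refine sum_congr rfl fun c _ => ?_
    rw [Finset.mul_sum]
  have r1 : (∑ a, ∑ b, ∑ d, Z a b * Z a d) = ∑ b, (∑ a, Z b a) ^ 2 := by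
    refine sum_congr rfl fun a _ => ?_
    rw [sq, Finset.sum_mul_sum]
  have r2 : (∑ a, ∑ b, ∑ c, Z a b * Z c a) = ∑ b, (∑ a, Z b a) ^ 2 := by
    rw [← r1]
    refine sum_congr rfl fun a _ => sum_congr rfl fun b _ => sum_congr rfl fun c _ => ?_
    rw [hs c a]
  have r3 : (∑ a, ∑ b, ∑ d, Z a b * Z b d) = ∑ b, (∑ a, Z b a) ^ 2 := by
    rw [← r1, Finset.sum_comm]
    refine sum_congr rfl fun a _ => sum_congr rfl fun b _ => sum_congr rfl fun c _ => ?_
    rw [hs b a]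
  have r4 : (∑ a, ∑ b, ∑ c, Z a b * Z c b) = ∑ b, (∑ a, Z b a) ^ 2 := by
    rw [← r3]
    refine sum_congr rfl fun a _ => sum_congr rfl fun b _ => sum_congr rfl fun c _ => ?_
    rw [hs c b]
  have r5 : (∑ a, ∑ b, Z a b * Z a b) = ∑ a, ∑ b, Z a b ^ 2 := by
    refine sum_congr rfl fun a _ => sum_congr rfl fun b _ => ?_
    ring
  have r6 : (∑ a, ∑ b, Z a b * Z b a) = ∑ a, ∑ b, Z a b ^ 2 := by
    rw [← r5]
    refine sum_congr rfl fun a _ => sum_congr rfl fun b _ => ?_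
    rw [hs b a]
  rw [r0, r1, r2, r3, r4, r5, r6]; ring

end Pool.Agent.Helper816.Jan
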